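import Mathlib

set_option autoImplicit false

/-! Truncated weighted l1 norms of formal power series. -/

namespace Pool.Agent.TWPx

open PowerSeries Finset

/-- truncated weighted norm -/
noncomputable def Nm (M : ℕ) (r : ℝ) (A : PowerSeries ℝ) : ℝ :=
  ∑ m ∈ range (M + 1), |coeff m A| * r ^ m

theorem Nm_nonneg (M : ℕ) {r : ℝ} (hr : 0 ≤ r) (A : PowerSeries ℝ) : 0 ≤ Nm M r A :=
  sum_nonneg fun m _ => mul_nonneg (abs_nonneg _) (pow_nonneg hr m)

theorem Nm_add (M : ℕ) {r : ℝ} (hr : 0 ≤ r) (A B : PowerSeries ℝ) :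
    Nm M r (A + B) ≤ Nm M r A + Nm M r B := by
  unfold Nm
  rw [← sum_add_distrib]
  refine sum_le_sum fun m _ => ?_
  rw [← add_mul, map_add]
  exact mul_le_mul_of_nonneg_right (abs_add_le _ _) (pow_nonneg hr m)

theorem Nm_neg (M : ℕ) (r : ℝ) (A : PowerSeries ℝ) : Nm M r (-A) = Nm M r A := by
  unfold Nm; simp

theorem Nm_sub (M : ℕ) {r : ℝ} (hr : 0 ≤ r) (A B : PowerSeries ℝ) :
    Nm M r (A - B) ≤ Nm M r A + Nm M r B := by
  have := Nm_add M hr A (-B)
  rwa [Nm_neg, ← sub_eq_add_neg] at this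

theorem Nm_smul (M : ℕ) (r : ℝ) (c : ℝ) (A : PowerSeries ℝ) : Nm M r (c • A) = |c| * Nm M r A := by
  unfold Nm
  rw [mul_sum]
  refine sum_congr rfl fun m _ => ?_
  rw [map_smul, smul_eq_mul, abs_mul, mul_assoc]

theorem Nm_mono_M {M M' : ℕ} (h : M ≤ M') {r : ℝ} (hr : 0 ≤ r) (A : PowerSeries ℝ) :
    Nm M r A ≤ Nm M' r A :=
  sum_le_sum_of_subset_of_nonneg (range_mono (by omega))
    fun m _ _ => mul_nonneg (abs_nonneg _) (pow_nonneg hr m)

theorem Nm_mono_r (M : ℕ) {r r' : ℝ} (hr : 0 ≤ r) (h : r ≤ r') (A : PowerSeries ℝ) :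
    Nm M r A ≤ Nm M r' A :=
  sum_le_sum fun m _ => mul_le_mul_of_nonneg_left (pow_le_pow_left₀ hr h m) (abs_nonneg _)

theorem Nm_mul (M : ℕ) {r : ℝ} (hr : 0 ≤ r) (A B : PowerSeries ℝ) :
    Nm M r (A * B) ≤ Nm M r A * Nm M r B := by
  unfold Nm
  have h1 : ∀ m ∈ range (M + 1), |coeff m (A * B)| * r ^ m ≤
      ∑ p ∈ antidiagonal m, (|coeff p.1 A| * r ^ p.1) * (|coeff p.2 B| * r ^ p.2) := by
    intro m _
    rw [coeff_mul]
    calc |∑ p ∈ antidiagonal m, coeff p.1 A * coeff p.2 B| * r ^ m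
        ≤ (∑ p ∈ antidiagonal m, |coeff p.1 A * coeff p.2 B|) * r ^ m :=
          mul_le_mul_of_nonneg_right (abs_sum_le_sum_abs _ _) (pow_nonneg hr m)
      _ = _ := by
          rw [sum_mul]
          refine sum_congr rfl fun p hp => ?_
          rw [HasAntidiagonal.mem_antidiagonal] at hp
          rw [abs_mul, ← hp, pow_add]; ring
  refine (sum_le_sum h1).trans ?_
  rw [sum_mul_sum, ← sum_product']
  rw [sum_sigma']
  refine le_trans (le_of_eq ?_) (sum_le_sum_of_subset_of_nonneg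
    (s := (range (M+1) ×ˢ range (M+1)).filter (fun p => p.1 + p.2 < M + 1)) (filter_subset _ _) ?_)
  · refine sum_bij' (fun x _ => x.2) (fun p _ => ⟨p.1 + p.2, p⟩) ?_ ?_ ?_ ?_ ?_
    · rintro ⟨m, p⟩ h
      simp only [mem_sigma, mem_range, HasAntidiagonal.mem_antidiagonal] at h
      simp only [mem_filter, mem_product, mem_range]
      omega
    · rintro p h
      simp only [mem_filter, mem_product, mem_range] at h
      rw [mem_sigma]
      exact ⟨mem_range.2 h.2, HasAntidiagonal.mem_antidiagonal.2 rfl⟩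
    · rintro ⟨m, p⟩ h
      simp only [mem_sigma, mem_range, HasAntidiagonal.mem_antidiagonal] at h
      obtain ⟨_, h2⟩ := h
      subst h2; rfl
    · intro p _; rfl
    · intro x _; rfl
  · intro p _ _
    exact mul_nonneg (mul_nonneg (abs_nonneg _) (pow_nonneg hr _))
      (mul_nonneg (abs_nonneg _) (pow_nonneg hr _))

theorem Nm_one (M : ℕ) (r : ℝ) : Nm M r 1 = 1 := by
  unfold Nm
  rw [sum_eq_single 0]
  · simp
  · intro m _ hm; simp [coeff_one, hm]
  · intro h; simp at h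

theorem Nm_coeff_zero (M : ℕ) {r : ℝ} (hr : 0 ≤ r) (A : PowerSeries ℝ) : |coeff 0 A| ≤ Nm M r A := by
  have : |coeff 0 A| * r ^ 0 ≤ Nm M r A :=
    single_le_sum (f := fun m => |coeff m A| * r ^ m)
      (fun m _ => mul_nonneg (abs_nonneg _) (pow_nonneg hr m)) (mem_range.2 (Nat.succ_pos M))
  simpa using this

/-- Neumann: `V` approximates the inverse of `A`. -/
theorem Nm_inv (M : ℕ) {r q : ℝ} (hr : 0 ≤ r) (A V : PowerSeries ℝ) (h : Nm M r (1 - V * A) ≤ q)
    (hq : q < 1) :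
    coeff 0 A ≠ 0 ∧ Nm M r A⁻¹ ≤ Nm M r V / (1 - q) ∧ Nm M r (A⁻¹ - V) ≤ Nm M r V * q / (1 - q) := by
  have h0 : coeff 0 A ≠ 0 := by
    intro h0
    have h2 := Nm_coeff_zero M hr (1 - V * A)
    have h3 : coeff 0 (1 - V * A) = 1 := by
      have : coeff 0 (V * A) = coeff 0 V * coeff 0 A := by simp [coeff_mul]
      rw [map_sub, this, h0]; simp
    rw [h3, abs_one] at h2
    linarith
  have hc : constantCoeff A ≠ 0 := by simpa using h0
  have hA : A * A⁻¹ = 1 := PowerSeries.mul_inv_cancel _ hc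
  have hq0 : 0 ≤ q := (Nm_nonneg M hr _).trans h
  have h1q : 0 < 1 - q := by linarith
  -- A⁻¹ = V + (1 - V A) A⁻¹
  have e1 : A⁻¹ = V + (1 - V * A) * A⁻¹ := by
    have : V * A * A⁻¹ = V := by rw [mul_assoc, hA, mul_one]
    rw [sub_mul, this]; ring
  have h4 : Nm M r A⁻¹ ≤ Nm M r V + q * Nm M r A⁻¹ := by
    calc Nm M r A⁻¹ = Nm M r (V + (1 - V * A) * A⁻¹) := by rw [← e1]
      _ ≤ Nm M r V + Nm M r ((1 - V * A) * A⁻¹) := Nm_add M hr _ _
      _ ≤ Nm M r V + Nm M r (1 - V * A) * Nm M r A⁻¹ := by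
          gcongr; exact Nm_mul M hr _ _
      _ ≤ _ := by
          gcongr; exact Nm_nonneg M hr _
  have h5 : Nm M r A⁻¹ ≤ Nm M r V / (1 - q) := by
    rw [le_div_iff₀ h1q]; linarith
  refine ⟨h0, h5, ?_⟩
  have e2 : A⁻¹ - V = (1 - V * A) * A⁻¹ := by
    conv_lhs => rw [e1]
    ring
  rw [e2]
  calc Nm M r ((1 - V * A) * A⁻¹) ≤ Nm M r (1 - V * A) * Nm M r A⁻¹ := Nm_mul M hr _ _
    _ ≤ q * (Nm M r V / (1 - q)) := by
        gcongr; exact Nm_nonneg M hr _
    _ = _ := by ring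

/-- derivative with loss of radius -/
theorem Nm_deriv (M : ℕ) {r r' c : ℝ} (hr' : 0 ≤ r')
    (hc : ∀ m : ℕ, (m + 1 : ℝ) * r ^ m ≤ c * r' ^ (m + 1)) (A : PowerSeries ℝ) :
    Nm M r (derivative ℝ A) ≤ c * Nm (M + 1) r' A := by
  unfold Nm
  rw [mul_sum, sum_range_succ' _ (M + 1)]
  have h0 : 0 ≤ c * (|coeff 0 A| * r' ^ 0) := by
    have h1 := hc 0
    have : 0 ≤ c * r' := by
      have := hc 0
      simp at this
      linarith
    rcases eq_or_lt_of_le hr' with h | h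
    · subst h
      have := hc 0
      simp at this
      linarith
    · have hc0 : 0 ≤ c := by
        by_contra hcn
        push Not at hcn
        nlinarith
      positivity
  have h2 : ∑ m ∈ range (M + 1), |coeff m (derivative ℝ A)| * r ^ m ≤
      ∑ m ∈ range (M + 1), c * (|coeff (m + 1) A| * r' ^ (m + 1)) := by
    refine sum_le_sum fun m _ => ?_
    rw [coeff_derivative, abs_mul, abs_of_nonneg (by positivity : (0 : ℝ) ≤ (m : ℝ) + 1)]
    have := hc m
    calc |coeff (m + 1) A| * ((m : ℝ) + 1) * r ^ m = |coeff (m + 1) A| * ((m + 1 : ℝ) * r ^ m) := by ring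
      _ ≤ |coeff (m + 1) A| * (c * r' ^ (m + 1)) := by gcongr
      _ = _ := by ring
  linarith

end Pool.Agent.TWPx
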